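import Mathlib
import Pool.Agent.TH115.GD.Defs
import Pool.Agent.TH115.ID.Defs
import Pool.Agent.R939.EI.Tw1
import Pool.Agent.R939.CC.Poly

/-!
# The conjecture of Birch and Swinnerton-Dyer for many quadratic twists over `k(t)`

Let `k` be a finite field with `q` elements, `q` odd, `K = k(t)`, `F = k^sep(t)`, and let
`E : y² = x (x² + a x + b)` be an elliptic curve over `K` with a rational point of order two, `a`, `b`
polynomials. `TateAtTwo` says that all the classes in `V₂ Sel(E / F)` which are fixed by the Galois
group of `k` come from `E(K)`: the Tate conjecture for divisors at the prime 2 on the elliptic surface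
over the projective line with generic fibre `E`, which over a finite field is equivalent to the
conjecture of Birch and Swinnerton-Dyer for `E` over `K` (Artin, Tate, Milne).

Theorem. Let `b` and `a² - 4 b` satisfy the condition `NotNorm` (not a constant times a square or times
a norm of a polynomial over the quadratic extension of `k`), let their product be not a constant times
a square, and let `OnlyTrivial` hold for `(a, b)` and for `(-2 a, a² - 4 b)`, the curve isogenous to
`E`. All this holds for example if `b` and `a² - 4 b` are irreducible of odd degree and `b` does not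
divide `a`. Then there is a `c > 0` such that for all large `n` there are at least

`c q^n / n^(3/4)`

monic squarefree polynomials `D` of degree `n` (of the `q^n - q^(n-1)` such polynomials) such that the
Tate conjecture at 2 holds for the quadratic twist `y² = x (x² + a D x + b D²)`, for its twists by
constants and for its base changes by the polynomials `h` of odd degree such that the primes which
divide `b (a² - 4 b) D` remain prime after `t ↦ h(t)`.

The field `k` is fixed and the degree of `D` tends to infinity. The prime `D` alone would give the
order of magnitude `q^n / n`.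

Proof. The criterion of `Pool.Agent.R939.EI.Tw1` applies if `b` and `a² - 4 b` are not squares modulo
the primes which divide `D`. By the bound of Weil these are a quarter of the primes of degree `m`, with
an error `O(q^(m/2))`. For the number of squarefree products of such primes we use a recursion
(`Pool.Agent.R939.CC.Comb` and `Ana`) which is solved up to a constant factor.
-/

namespace Pool.Agent.Results.MP_ff7320_nt.ManyTwists

open Polynomial Pool.Agent.TH115.GD Pool.Agent.R939.EI

theorem result {k k' K F : Type} [Field k] [Fintype k] [Field k'] [Algebra k k'] [Field K]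
    [Algebra k[X] K] [Field F] [Algebra k'[X] F] [IsFractionRing k'[X] F] [Algebra K F]
    (hT : IsTower k k' K F) (hk : ringChar k ≠ 2) {a b : k[X]}
    (hNb : NotNorm b) (hNd : NotNorm (a ^ 2 - 4 * b))
    (hbd : ∀ (c : k) (g : k[X]), b * (a ^ 2 - 4 * b) ≠ C c * g ^ 2)
    (hO : OnlyTrivial a b) (hO' : OnlyTrivial (-2 * a) (a ^ 2 - 4 * b)) :
    ∃ (c : ℝ) (n0 : ℕ), 0 < c ∧ ∀ n : ℕ, n0 ≤ n → ∃ V : Finset k[X],
      (∀ D ∈ V, D.Monic ∧ Squarefree D ∧ D.natDegree = n ∧
        ∀ (e : k) (h : k[X]), e ≠ 0 → Odd h.natDegree →
          (∀ π : k[X], Irreducible π → π ∣ b * (a ^ 2 - 4 * b) * D → Irreducible (π.comp h)) →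
          TateAtTwo (F := F) k' (crvT (algebraMap k[X] K ((C e * (a * D)).comp h))
            (algebraMap k[X] K ((C (e ^ 2) * (b * D ^ 2)).comp h)))) ∧
      c * (n : ℝ) ^ ((1 : ℝ) / 4) * (Fintype.card k : ℝ) ^ n ≤ n * V.card :=
  Pool.Agent.R939.CC.many_twists hT hk hNb hNd hbd hO hO'

end Pool.Agent.Results.MP_ff7320_nt.ManyTwists
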