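import Pool.Agent.R427.TS3
import Pool.Agent.R427.LC2
import Pool.Agent.R915.It.Tri2

/-!
# The conjecture of Birch and Swinnerton-Dyer in rank one for all composites of the polynomials `tᵐ + c`

Let `k` be a finite field of characteristic at least five, with `|k|` congruent to `2` modulo three, and
let `p`, `q`, `r` in `k[t]` be a triple (`IsTriple`): irreducible, pairwise non-associated, of degrees
prime to three, such that for `e = p - q - r` and `f = p q r` the degree of `f` is divisible by three, the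
degree of `e` is at most a third of it, and all irreducible factors of `e ^ 3 - 27 f` are of odd degree.
Then for the curve `y ^ 2 + e x y + f y = x ^ 3` over `k(t)` the rank and the order of vanishing of the
`L`-function are both one (`RankOne`), provided the rank is at most the order
(`MP_1bad5e_ag.ThreePrimes`).

Theorem. Let `M` be a set of odd primes which divide `|k| - 1` and let `S` be a subring of `k`, such that
for all `ℓ` in `M` the values at the elements of `S` of the monic multiples of `p`, `q`, `r` are not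
`ℓ`-th powers in `k`. Then for ALL the composites `h` of polynomials `tᵐ + c`, with arbitrary `c` in `S`
and `m` all of whose prime factors are in `M`, the curve `y ^ 2 + e(h) x y + f(h) y = x ^ 3` over `k(t)`,
the base change by `t ↦ h(t)`, has rank and order of vanishing one, provided the rank is at most the order
(this is an inequality of Tate).

(2) Let `S` be a subring of `k` with `s` elements (for example the prime field) and let `ℓ` be a prime
which divides `|k| - 1`, with `ℓ > 6 s`. For all `u` in `k` outside of the roots of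
`u (u + 1) (u - 1) (u + 2) (2 u + 1)` there is a `c` in `k`, not zero, such that the polynomials
`1 + u ^ 3 c t`, `-(1 + c t)`, `-(1 - (u + 1) ^ 3 c t)` satisfy the conditions for `S` and `M = {ℓ}`.

(3) Over the field with eleven elements the polynomials `4 t ^ 2 + 5`, `7 t ^ 2 + 9 t + 3`,
`7 t ^ 2 + 2 t + 3` satisfy the conditions, for `S` the field itself: for ALL the composites `h` of
polynomials `t ^ (5 ^ j) + c` the curve `y ^ 2 + (h ^ 2 - 1) x y + 9 (h ^ 2 + 4) (h ^ 4 + h ^ 2 + 4) y =
x ^ 3` over the field of rational functions in `t` has rank and order one, provided the rank is at most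
the order.

Proof. For a root `x` of `p` the norm of `x - c` is `± p(c)` up to the leading coefficient, so `p(tᵐ + c)`
is irreducible by the criterion of Vahlen and Capelli, and the composites map `S` to `S`. The degree of
each irreducible factor of `g(t ^ ℓ + c)`, `ℓ` dividing `|k| - 1`, divides `ℓ` times the degree of an
irreducible factor of `g`; this is applied to `g = e ^ 3 - 27 f`. So the composites of triples are triples.
-/

set_option autoImplicit false
set_option linter.all false
set_option maxHeartbeats 4000000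

open Polynomial Pool.Agent.W343.BSD Pool.Agent.W313.Gr Pool.Agent.R915.It

namespace Pool.Agent.Results.MP_ff7320_nt.RankOneComposites

section defs

/-- The coefficient of `x` of the short form of `y ^ 2 + e x y + f y = x ^ 3`. -/
def coeffA {R : Type} [CommRing R] (e f : R) : R := -27 * (e ^ 4 - 24 * e * f)

/-- The constant coefficient of the short form of `y ^ 2 + e x y + f y = x ^ 3`. -/
def coeffB {R : Type} [CommRing R] (e f : R) : R := 54 * (e ^ 6 - 36 * e ^ 3 * f + 216 * f ^ 2)

/-- The coefficient `coeffA` for `e = p - q - r`, `f = p q r` over `k(t)`. -/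
noncomputable def crvA {k : Type} [Field k] (p q r : k[X]) : RatFunc k :=
  coeffA (algebraMap k[X] (RatFunc k) (p - q - r)) (algebraMap k[X] (RatFunc k) (p * q * r))

/-- The coefficient `coeffB` for `e = p - q - r`, `f = p q r` over `k(t)`. -/
noncomputable def crvB {k : Type} [Field k] (p q r : k[X]) : RatFunc k :=
  coeffB (algebraMap k[X] (RatFunc k) (p - q - r)) (algebraMap k[X] (RatFunc k) (p * q * r))

variable {k K : Type} [Field k] [Field K] [Algebra k K]

/-- `L(T, E)` is `(1 - |k| T) ^ m G(T)`. -/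
def LIs (k : Type) {K : Type} [Field k] [Field K] [Algebra k K] (a b : K) (m : ℕ) (G : ℤ[X]) :
    Prop :=
  S.Lfun k a b = (((1 - C (Nat.card k : ℤ) * X) ^ m * G : ℤ[X]) : PowerSeries ℤ)

/-- The rational number `G(1 / |k|)` is not zero and its `3`-adic valuation is zero. -/
def UnitAt (k : Type) (G : ℤ[X]) : Prop :=
  (G.map (Int.castRingHom ℚ)).eval ((Nat.card k : ℕ) : ℚ)⁻¹ ≠ 0 ∧
    padicValRat 3 ((G.map (Int.castRingHom ℚ)).eval ((Nat.card k : ℕ) : ℚ)⁻¹) = 0

/-- The rank is at least one. If `L(T, E) = (1 - |k| T) ^ m G(T)` with `G` in `ℤ[T]`, then `m ≤ 1`, and if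
`m = 1` then `UnitAt` holds for `G`. If `L(T, E)` is a polynomial with order of vanishing `r` at
`1 / |k|` then `r ≤ 1`, and if the rank is at most `r` then `r` and the rank are one. -/
def RankOne (k : Type) {K : Type} [Field k] [Field K] [Algebra k K] (a b : K) : Prop :=
  1 ≤ rank a b ∧ (∀ (m : ℕ) (G : ℤ[X]), LIs k a b m G → m ≤ 1 ∧ (m = 1 → UnitAt k G)) ∧
    ∀ r : ℕ, HasOrder k a b r → r ≤ 1 ∧ (rank a b ≤ r → r = 1 ∧ rank a b = 1)

/-- `y ^ 2 = x ^ 3 + a x + b` is an elliptic curve with a non-constant `j`-invariant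
`6912 a ^ 3 / (4 a ^ 3 + 27 b ^ 2)`. -/
def NonIsotrivial (k : Type) {K : Type} [Field k] [Field K] [Algebra k K] (a b : K) : Prop :=
  4 * a ^ 3 + 27 * b ^ 2 ≠ 0 ∧
    ∀ c : k, 6912 * a ^ 3 / (4 * a ^ 3 + 27 * b ^ 2) ≠ algebraMap k K c

end defs

section proof

open Pool.Agent.R427

variable {k : Type} [Field k]

theorem tri_of {p q r : k[X]} (h : IsTriple p q r) : TS.Tri p q r :=
  ⟨h.1.1.1, h.1.1.2.1, h.1.1.2.2, h.1.2.1, h.1.2.2.1, h.1.2.2.2, h.2.1.1, h.2.1.2.1, h.2.1.2.2,
    h.2.2.1, h.2.2.2.1, h.2.2.2.2⟩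

variable [Finite k]

/-- the positive rank over `k(t)` -/
theorem rank_base (h6 : (6 : k) ≠ 0) (hq : Nat.card k % 3 = 2) {p q r : k[X]}
    (h : Distinct p q r) : 1 ≤ rank (crvA p q r) (crvB p q r) := by
  have h2 : (2 : k) ≠ 0 := fun e => h6 (by linear_combination 3 * e)
  have h3 : (3 : k) ≠ 0 := fun e => h6 (by linear_combination 2 * e)
  exact TS.rank_pos h2 h3 (TS.neg_three h6 hq) h.1.1 h.1.2.1 h.1.2.2 h.2.1 h.2.2.1 h.2.2.2

theorem tri_rank (h6 : (6 : k) ≠ 0) (hq : Nat.card k % 3 = 2) {p q r : k[X]}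
    (h : IsTriple p q r) : RankOne k (crvA p q r) (crvB p q r) := by
  have hT := tri_of h
  have h3 : (3 : k) ≠ 0 := fun e => h6 (by linear_combination 2 * e)
  have hK : IsCurveField k (RatFunc k) := Pool.Agent.TH958.T4.isCurveField_rat
  haveI : FF.IsFF k (RatFunc k) := ⟨hK.essFiniteType, hK.trdeg_eq_one⟩
  haveI : Fact (Nat.Prime 3) := ⟨Nat.prime_three⟩
  have hr : constDeg k (RatFunc k) = 1 := TH958.T4.constDeg_eq_one hK.algClosed
  have hf0 : p * q * r ≠ 0 := mul_ne_zero (mul_ne_zero hT.ip.ne_zero hT.iq.ne_zero) hT.ir.ne_zero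
  have hg0 := hT.node_ne h3
  have hΔ := TS.disc_ne h6 hf0 hg0
  obtain ⟨m, hm⟩ := hT.d3
  have hde := hT.de
  have hw := TS.sum_rat h6 hq (m := m) (by omega) hm hf0 hg0 hT.odd
  have hw2 := hw.trans (TS.sum_three hT.ip hT.iq hT.ir hT.dp hT.dq hT.dr)
  have hrk := rank_base h6 hq h.1
  have h3' : ((3 : ℕ) : k) ≠ 0 := by exact_mod_cast h3
  have hroot : rootSum 3 k 1 = 0 := by
    unfold rootSum
    rw [Polynomial.map_one]
    have h : ∀ x : ZMod 3, (1 : (ZMod 3)[X]).rootMultiplicity x = 0 := by
      intro x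
      apply rootMultiplicity_eq_zero
      rw [IsRoot.def, eval_one]
      exact one_ne_zero
    rw [h, h]
  have hN := TH639.B3.pointsDvd_three h6 (TS.isT3 _ _) hΔ
  have key : ∀ (m : ℕ) (G : ℤ[X]), LIs k (crvA p q r) (crvB p q r) m G →
      m ≤ 1 ∧ (m = 1 → UnitAt k G) := by
    intro m G hG
    refine LC.fam (l := 3) (P := 1) h3' hΔ hN
      ((S.isZetaNum_iff 1).1 Pool.Agent.W309.RF.isZetaNum_rat) hr ?_ hG
    rw [hroot]
    have h5 := hw2
    show 0 + weightSum 3 k _ _ ≤ _
    have h7 : weightSum 3 k (TS.sA (W309.RF.A (p - q - r)) (W309.RF.A (p * q * r)))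
      (TS.sB (W309.RF.A (p - q - r)) (W309.RF.A (p * q * r))) ≤ 3 := hw2
    refine le_trans (le_of_eq ?_) (le_trans h7 ?_)
    · rw [zero_add]
    · omega
  refine ⟨hrk, key, fun r' hr' => ?_⟩
  have h8 : ((1 : ℕ) : Cardinal) ≤ rank (crvA p q r) (crvB p q r) := by
    rw [Nat.cast_one]
    exact hrk
  obtain ⟨h9, h10⟩ := TH180.R4.concl4 h8 (fun m hm => by
    obtain ⟨G, hG⟩ := hm
    exact (key m G hG).1) r' hr'
  refine ⟨h9, fun hle => ?_⟩
  obtain ⟨h11, h12⟩ := h10 hle
  exact ⟨h11, by rw [h12, Nat.cast_one]⟩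

theorem noniso (h6 : (6 : k) ≠ 0) {p q r : k[X]} (h : IsTriple p q r) (hne : p ≠ q + r) :
    NonIsotrivial k (crvA p q r) (crvB p q r) := by
  have hT := tri_of h
  have h2 : (2 : k) ≠ 0 := fun e => h6 (by linear_combination 3 * e)
  have h3 : (3 : k) ≠ 0 := fun e => h6 (by linear_combination 2 * e)
  have hf0 : p * q * r ≠ 0 := mul_ne_zero (mul_ne_zero hT.ip.ne_zero hT.iq.ne_zero) hT.ir.ne_zero
  have hΔ := TS.disc_ne h6 hf0 (hT.node_ne h3)
  refine ⟨hΔ, fun c hc => ?_⟩
  have h5 := (div_eq_iff hΔ).1 hc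
  apply hT.noniso h2 h3 hne c
  apply RatFunc.algebraMap_injective k
  rw [map_mul, map_pow, map_mul, map_add, map_mul, map_mul, map_pow, map_pow, TS.map_sA, TS.map_sB,
    map_ofNat, map_ofNat, map_ofNat]
  exact h5

end proof

/-- (1) For all finite fields `k` of characteristic at least five with `|k|` congruent to `2` modulo three,
all sets `M` of odd primes dividing `|k| - 1`, all subrings `S` of `k`, all triples `p`, `q`, `r` as above
such that for all `ℓ` in `M` no value at an element of `S` of their monic multiples is an `ℓ`-th power, and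
ALL the composites `h` of polynomials `tᵐ + c`, `c` in `S`, the prime factors of `m` in `M`: `RankOne` holds
for the curve attached to `p(h)`, `q(h)`, `r(h)`, and its `j`-invariant is not constant if `p ≠ q + r`.

(2) If `6 |S| < ℓ` for a prime `ℓ` in `oddPrimes k`, then for all `u` in `k` which are not a root of
`u (u + 1) (u - 1) (u + 2) (2 u + 1)` there is a `c ≠ 0` in `k` such that the hypotheses of (1) hold for
`M = {ℓ}` and the polynomials `1 + u ^ 3 c t`, `-(1 + c t)`, `-(1 - (u + 1) ^ 3 c t)`.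

(3) Over the field with eleven elements the hypotheses of (1) hold for `M = oddPrimes = {5}`, the whole
field `S` and `4 t ^ 2 + 5`, `7 t ^ 2 + 9 t + 3`, `7 t ^ 2 + 2 t + 3`. -/
theorem result :
    (∀ (k : Type) [Field k] [Finite k], (6 : k) ≠ 0 → Nat.card k % 3 = 2 →
      ∀ (M : Set ℕ) (S : Subring k) (p q r : k[X]), M ⊆ oddPrimes k → Good M S p q r →
        ∀ h : k[X], IsComposite M (S : Set k) h →
          RankOne k (crvA (p.comp h) (q.comp h) (r.comp h)) (crvB (p.comp h) (q.comp h) (r.comp h)) ∧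
          (p ≠ q + r → NonIsotrivial k (crvA (p.comp h) (q.comp h) (r.comp h))
            (crvB (p.comp h) (q.comp h) (r.comp h)))) ∧
    (∀ (k : Type) [Field k] [Finite k], (6 : k) ≠ 0 → Nat.card k % 3 = 2 →
      ∀ (S : Subring k) (ℓ : ℕ), ℓ ∈ oddPrimes k → 6 * Nat.card S < ℓ →
        ∀ u : k, u * (u + 1) * (u - 1) * (u + 2) * (2 * u + 1) ≠ 0 →
          ∃ c : k, c ≠ 0 ∧ Good {ℓ} S (1 + C (u ^ 3 * c) * X) (-(1 + C c * X))
            (-(1 - C ((u + 1) ^ 3 * c) * X))) ∧
    Good (oddPrimes (ZMod 11)) ⊤ (quad 4 0 5) (quad 7 9 3) (quad 7 2 3) := by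
  refine ⟨?_, ?_, example11⟩
  · intro k _ _ h6 hq M S p q r hM hG h hh
    have h3 : (3 : k) ≠ 0 := fun e => h6 (by linear_combination 2 * e)
    have hT := hG.1.composite h3 hq hM hG.2.1 hG.2.2.1 hG.2.2.2 hh
    refine ⟨tri_rank h6 hq hT, fun hne => noniso h6 hT fun he => hne ?_⟩
    have h1 : (p - (q + r)).comp h = 0 := by
      rw [sub_comp, add_comp, he, sub_self]
    rcases comp_eq_zero_iff.1 h1 with h2 | ⟨-, h2⟩
    · exact sub_eq_zero.1 h2
    · exfalso
      apply hh.monic.2
      rw [h2, natDegree_C]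
  · intro k _ _ h6 hq S ℓ hℓ hS u hu
    have h3 : (3 : k) ≠ 0 := fun e => h6 (by linear_combination 2 * e)
    exact exists_good h3 hq S hℓ hS hu

end Pool.Agent.Results.MP_ff7320_nt.RankOneComposites
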