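import Pool.Agent.R427.TS15

/-!
# Elliptic curves of rank two over function fields with a cube root of unity in the constants

Let `k` be a finite field with `|k|` congruent to `1` modulo three and let `α`, `β` in `k` be different
from `0` and `1` such that `α β ≠ 1` and `α / β` is not a cube. There is a linear polynomial `r` such that
`e = 1 - r` and `f = t (t - 1) r` satisfy `e = t - (t - 1) - r = α t - β (t - 1) - γ r` with
`γ = 1 / (α β)`. We show that the elliptic curve `y ^ 2 + e(h) x y + f(h) y = x ^ 3` has rank at least two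
over all function fields `K` over `k`, for all non-constant `h` in `K`, and bound the order of vanishing
of the `L`-function.
-/

set_option autoImplicit false
set_option linter.all false
set_option maxHeartbeats 4000000

open Polynomial Pool.Agent.W343.BSD Pool.Agent.W313.Gr

namespace Pool.Agent.Results.MP_ff7320_nt.RankTwoOneModThree

section defs

/-- The coefficient of `x` of the short form of `y ^ 2 + e x y + f y = x ^ 3`. -/
def coeffA {R : Type} [CommRing R] (e f : R) : R := -27 * (e ^ 4 - 24 * e * f)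

/-- The constant coefficient of the short form of `y ^ 2 + e x y + f y = x ^ 3`. -/
def coeffB {R : Type} [CommRing R] (e f : R) : R := 54 * (e ^ 6 - 36 * e ^ 3 * f + 216 * f ^ 2)

variable {k K : Type} [Field k] [Field K] [Algebra k K]

/-- `α` and `β` are different from `0` and `1`, `α β ≠ 1` and `α / β` is not a cube. -/
def Parameters (α β : k) : Prop :=
  (α ≠ 0 ∧ β ≠ 0) ∧ (α ≠ 1 ∧ β ≠ 1) ∧ α * β ≠ 1 ∧ ∀ z : k, z ^ 3 ≠ α / β

/-- The linear polynomial `r = ((β - α) t + 1 - β) / (1 - γ)` with `γ = 1 / (α β)`. -/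
noncomputable def pr (α β : k) : k[X] :=
  C ((β - α) / (1 - (α * β)⁻¹)) * X + C ((1 - β) / (1 - (α * β)⁻¹))

/-- The polynomial `e = t - (t - 1) - r`. -/
noncomputable def pe (α β : k) : k[X] := X - (X - C 1) - pr α β

/-- The polynomial `f = t (t - 1) r`. -/
noncomputable def pf (α β : k) : k[X] := X * (X - C 1) * pr α β

/-- The polynomial `g = e ^ 3 - 27 f`. -/
noncomputable def pg (α β : k) : k[X] := pe α β ^ 3 - 27 * pf α β

open Classical in
/-- The sum of `3 ^ v₃(deg v)` over the zeros `v` of `g` (without multiplicities). -/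
noncomputable def zeroSum (k : Type) {K : Type} [Field k] [Field K] [Algebra k K] (g : K) : ℕ :=
  ∑ᶠ v : FF.Place k K, if 0 < v.ord g then 3 ^ padicValNat 3 (S.deg v) else 0

/-- The weight: the sum over the zeros of `f(h)` and of `g(h)`. -/
noncomputable def weight (α β : k) (h : K) : ℕ :=
  zeroSum k (aeval h (pf α β)) + zeroSum k (aeval h (pg α β))

/-- `L(T, E)` is `(1 - |k| T) ^ m G(T)`. -/
def LIs (k : Type) {K : Type} [Field k] [Field K] [Algebra k K] (a b : K) (m : ℕ) (G : ℤ[X]) :
    Prop :=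
  S.Lfun k a b = (((1 - C (Nat.card k : ℤ) * X) ^ m * G : ℤ[X]) : PowerSeries ℤ)

/-- The rational number `G(1 / |k|)` is not zero and its `3`-adic valuation is zero. -/
def UnitAt (k : Type) (G : ℤ[X]) : Prop :=
  (G.map (Int.castRingHom ℚ)).eval ((Nat.card k : ℕ) : ℚ)⁻¹ ≠ 0 ∧
    padicValRat 3 ((G.map (Int.castRingHom ℚ)).eval ((Nat.card k : ℕ) : ℚ)⁻¹) = 0

/-- The rank is at least two. If `L(T, E) = (1 - |k| T) ^ m G(T)` with `G` in `ℤ[T]`, then `m ≤ 2`, and if
`m = 2` then `UnitAt` holds for `G`. If `L(T, E)` is a polynomial with order of vanishing `n` at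
`1 / |k|` then `n ≤ 2`, and if the rank is at most `n` then `n` and the rank are two. -/
def RankTwo (k : Type) {K : Type} [Field k] [Field K] [Algebra k K] (a b : K) : Prop :=
  2 ≤ rank a b ∧ (∀ (m : ℕ) (G : ℤ[X]), LIs k a b m G → m ≤ 2 ∧ (m = 2 → UnitAt k G)) ∧
    ∀ n : ℕ, HasOrder k a b n → n ≤ 2 ∧ (rank a b ≤ n → n = 2 ∧ rank a b = 2)

/-- `y ^ 2 = x ^ 3 + a x + b` is an elliptic curve with a non-constant `j`-invariant
`6912 a ^ 3 / (4 a ^ 3 + 27 b ^ 2)`. -/
def NonIsotrivial (k : Type) {K : Type} [Field k] [Field K] [Algebra k K] (a b : K) : Prop :=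
  4 * a ^ 3 + 27 * b ^ 2 ≠ 0 ∧
    ∀ c : k, 6912 * a ^ 3 / (4 * a ^ 3 + 27 * b ^ 2) ≠ algebraMap k K c

/-- The coefficients of the curve `E_h`. -/
noncomputable def hA (α β : k) (h : K) : K := coeffA (aeval h (pe α β)) (aeval h (pf α β))

/-- The coefficients of the curve `E_h`. -/
noncomputable def hB (α β : k) (h : K) : K := coeffB (aeval h (pe α β)) (aeval h (pf α β))

/-- The `j`-invariant of `E_h` is not constant and the rank of `E_h` is at least two. If `P` is the
numerator of the zeta function of `K` and `N = rootSum P` the number of its roots `1` and `1 / |k|` modulo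
three (zero if three does not divide the class number), then for all `m`, `G` with
`L(T, E_h) = (1 - |k| T) ^ m G(T)`, `G` in `ℤ[T]`, we have `m + 4 ≤ N + weight`, and if
`N + weight ≤ 6` then `RankTwo` holds. -/
def Conclusions (α β : k) (h : K) : Prop :=
  NonIsotrivial k (hA α β h) (hB α β h) ∧ 2 ≤ rank (hA α β h) (hB α β h) ∧
    ∀ P : ℤ[X], S.IsZetaNum k K P → (¬ 3 ∣ S.classNumber k K → rootSum 3 k P = 0) ∧
      (∀ (m : ℕ) (G : ℤ[X]), LIs k (hA α β h) (hB α β h) m G →
        m + 4 ≤ rootSum 3 k P + weight α β h) ∧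
      (rootSum 3 k P + weight α β h ≤ 6 → RankTwo k (hA α β h) (hB α β h))

end defs

section proof

open Pool.Agent.R427

theorem numRoots_zero {l : ℕ} [Fact l.Prime] {k K : Type} [Field k] [Finite k] [Field K]
    [Algebra k K] (hK : IsCurveField k K) (hlk : ((l : ℕ) : k) ≠ 0) {P : Polynomial ℤ}
    (hP : S.IsZetaNum k K P) (hcl : ¬ l ∣ S.classNumber k K) : rootSum l k P = 0 := by
  haveI : FF.IsFF k K := ⟨hK.essFiniteType, hK.trdeg_eq_one⟩
  have hr : constDeg k K = 1 := TH958.T4.constDeg_eq_one hK.algClosed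
  have hcl' : ¬ l ∣ classNumber k K := by rwa [← S.classNumber_eq]
  have hconst : ∀ a : K, IsAlgebraic k a → a ∈ (algebraMap k K).range := hK.algClosed
  obtain ⟨Q, hQ, hQ1⟩ := exists_num k K hconst
  have hPQ : P = Q := by
    have h1 := (S.isZetaNum_iff P).1 hP
    unfold IsZetaNumRel at h1
    unfold IsZetaNum at hQ
    rw [hr, pow_one, pow_one] at h1
    have h2 := h1.trans hQ.symm
    apply Polynomial.coe_injective
    refine mul_right_cancel₀ (fun h0 => ?_) h2
    rw [h0, mul_zero] at h1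
    have h3 := congrArg (PowerSeries.constantCoeff (R := ℤ)) h1
    simp at h3
  subst hPQ
  have e1 := AQ.eval_inv_ne (l := l) hlk hconst hQ hcl'
  unfold rootSum
  rw [Polynomial.rootMultiplicity_eq_zero e1, Polynomial.rootMultiplicity_eq_zero, add_zero]
  intro h0
  rw [IsRoot.def, Polynomial.eval_one_map, hQ1, eq_intCast, ZMod.intCast_zmod_eq_zero_iff_dvd] at h0
  exact hcl' (by exact_mod_cast h0)

theorem dat_of {k : Type} [Field k] {α β : k} (h : Parameters α β) :
    TS.Dat α β (α * β)⁻¹ ((β - α) / (1 - (α * β)⁻¹)) ((1 - β) / (1 - (α * β)⁻¹)) := by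
  obtain ⟨⟨h1, h2⟩, ⟨h3, h4⟩, h5, h6⟩ := h
  have hγ : (α * β)⁻¹ ≠ 1 := by
    intro h7
    exact h5 (inv_eq_one.1 h7)
  have hd : 1 - (α * β)⁻¹ ≠ 0 := sub_ne_zero.2 (Ne.symm hγ)
  refine ⟨mul_inv_cancel₀ (mul_ne_zero h1 h2), h3, h4, hγ, mul_div_cancel₀ _ hd,
    mul_div_cancel₀ _ hd, fun z hz => h6 z ?_⟩
  rw [← hz, mul_div_assoc, div_self h2, mul_one]

variable {k : Type} [Field k] [Finite k] {α β : k}

theorem common {K : Type} [Field K] [Algebra k K] (h6 : (6 : k) ≠ 0) (hq : 3 ∣ Nat.card k - 1)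
    (hK : IsCurveField k K) (hp : Parameters α β) {h : K}
    (hh : ∀ c : k, h ≠ algebraMap k K c) : Conclusions α β h := by
  haveI : FF.IsFF k K := ⟨hK.essFiniteType, hK.trdeg_eq_one⟩
  haveI : Fact (Nat.Prime 3) := ⟨Nat.prime_three⟩
  have hr : constDeg k K = 1 := TH958.T4.constDeg_eq_one hK.algClosed
  have htr := TH180.R2.transc hr hh
  have h2 : (2 : k) ≠ 0 := fun e => h6 (by linear_combination 3 * e)
  have h3 : (3 : k) ≠ 0 := fun e => h6 (by linear_combination 2 * e)
  have h3' : ((3 : ℕ) : k) ≠ 0 := by exact_mod_cast h3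
  have D := dat_of hp
  obtain ⟨iX, i1, ir, n1, n2, n3, dr, hfd, hed, hcop, hgd, hgi⟩ := D.facts h3
  have hf0 : pf α β ≠ 0 := mul_ne_zero (mul_ne_zero iX.ne_zero i1.ne_zero) ir.ne_zero
  have hΔ := TS.disc_ne' (K := K) h6 (e := pe α β) (f := pf α β) hf0 hgi.ne_zero htr
  have hN := TH639.B3.pointsDvd_three h6 (TS.isT3 _ _) hΔ
  have hw : weightSum 3 k (hA α β h) (hB α β h) ≤ weight α β h := D.weightSum_le h6 htr
  have hrank : ((2 : ℕ) : Cardinal) ≤ rank (hA α β h) (hB α β h) :=
    TS.rank_le_pull (K := K) (D.rank_base h2 h3 hq) htr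
  have hrank2 : 2 ≤ rank (hA α β h) (hB α β h) := by exact_mod_cast hrank
  have hshift : 2 + 2 * (if ((Nat.card k : ℕ) : ZMod 3) = 1 then 1 else 0) = 4 := by
    have h4 : ((Nat.card k : ℕ) : ZMod 3) = 1 := by
      have hpos : 1 ≤ Nat.card k := Nat.card_pos
      rw [← ZMod.natCast_eq_zero_iff, Nat.cast_sub hpos, Nat.cast_one, sub_eq_zero] at hq
      exact hq
    rw [if_pos h4]
  have hXe : ¬ (X : k[X]) ∣ pe α β := by
    intro hd
    exact iX.not_isUnit (hcop.isUnit_of_dvd' hd
      (dvd_mul_of_dvd_left (dvd_mul_right (X : k[X]) (X - C 1)) _))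
  refine ⟨⟨hΔ, fun c hc => ?_⟩, hrank2, fun P hP => ⟨fun hcl => numRoots_zero hK h3' hP hcl, ?_, ?_⟩⟩
  · exact TS.noniso_K' (K := K) h2 h3 iX (f := pf α β)
      (dvd_mul_of_dvd_left (dvd_mul_right (X : k[X]) (X - C 1)) _) hXe htr c ((div_eq_iff hΔ).1 hc)
  · intro m G hG
    have h5 := (LC.main (l := 3) h3' hΔ hN ((S.isZetaNum_iff P).1 hP) hr hG).1
    rw [hshift] at h5
    have h7 : m + 4 ≤ rootSum 3 k P + weightSum 3 k (hA α β h) (hB α β h) := h5
    omega
  · intro hle
    have h8 : rootSum 3 k P + weightSum 3 k (hA α β h) (hB α β h) ≤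
        2 + (2 + 2 * (if ((Nat.card k : ℕ) : ZMod 3) = 1 then 1 else 0)) := by
      rw [hshift]
      omega
    have key : ∀ (m : ℕ) (G : ℤ[X]), LIs k (hA α β h) (hB α β h) m G →
        m ≤ 2 ∧ (m = 2 → UnitAt k G) := fun m G hG =>
      LC.fam (l := 3) h3' hΔ hN ((S.isZetaNum_iff P).1 hP) hr h8 hG
    refine ⟨hrank2, key, fun r' hr' => ?_⟩
    obtain ⟨h10, h11⟩ := TH180.R4.concl4 hrank (fun m hm => by
      obtain ⟨G, hG⟩ := hm
      exact (key m G hG).1) r' hr'
    refine ⟨h10, fun hle => ?_⟩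
    obtain ⟨h12, h13⟩ := h11 hle
    exact ⟨h12, by rw [h13]; norm_num⟩

theorem rootSum_one (l : ℕ) [Fact l.Prime] (k : Type) : rootSum l k 1 = 0 := by
  unfold rootSum
  rw [Polynomial.map_one]
  have h : ∀ x : ZMod l, (1 : (ZMod l)[X]).rootMultiplicity x = 0 := by
    intro x
    apply rootMultiplicity_eq_zero
    rw [IsRoot.def, eval_one]
    exact one_ne_zero
  rw [h, h]

theorem poly_nonconst {k : Type} [Field k] {g : k[X]} (hg : 0 < g.natDegree) (c : k) :
    algebraMap k[X] (RatFunc k) g ≠ algebraMap k (RatFunc k) c := by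
  intro hz
  have h1 : g = C c := RatFunc.algebraMap_injective k hz
  rw [h1, natDegree_C] at hg
  exact lt_irrefl _ hg

end proof

/-- Let `k` be a finite field of characteristic at least five whose number of elements is congruent to `1`
modulo three. Let `α`, `β` in `k` be different from `0` and `1` such that `α β ≠ 1` and `α / β` is not a
cube in `k`. Put `γ = 1 / (α β)`, `r = ((β - α) t + 1 - β) / (1 - γ)`, `e = 1 - r`, `f = t (t - 1) r` and
`g = e ^ 3 - 27 f`. For a function field `K` over `k` and `h` in `K` let `E_h` be the curve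
`y ^ 2 = x ^ 3 + A x + B`, the short form of `y ^ 2 + e(h) x y + f(h) y = x ^ 3`.

(1) The polynomial `g` is irreducible of degree three.

(2) For all function fields `K` of curves over `k` and all non-constant `h` in `K` the `j`-invariant of
`E_h` is not constant, the rank of `E_h` over `K` is at least two, and the `L`-function of `E_h` vanishes at
`s = 1` to order at most `N + W - 4`, where `N` is the number of the roots `1` and `1 / |k|` modulo three
of the numerator of the zeta function of `K` (zero if three does not divide the class number) and `W` is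
the weight, the sum of `3 ^ v₃(deg v)` over the zeros `v` of `f(h)` and of `g(h)`. If `N + W ≤ 6`, then the
order is at most two, both the rank and the order are two if the rank is at most the order, and the
leading coefficient of the `L`-function is a `3`-adic unit.

(3) If `l ≥ 7` is a prime dividing `|k| - 1`, then for some `t₀`, `z` in `k`, `z ≠ 0`, `W ≤ 6` and
`RankTwo` hold for `K = k(t)` and `h = t₀ + z t ^ (l ^ j)`, for all `j`.

(4) For all `ν` in `k` that are not cubes `α = -ν` and `β = -1` satisfy the conditions. -/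
theorem result (k : Type) [Field k] [Finite k] (h6 : (6 : k) ≠ 0) (hq : 3 ∣ Nat.card k - 1) :
    (∀ α β : k, Parameters α β →
      (Irreducible (pg α β) ∧ (pg α β).natDegree = 3) ∧
      (∀ (K : Type) [Field K] [Algebra k K], IsCurveField k K →
        ∀ h : K, (∀ z : k, h ≠ algebraMap k K z) → Conclusions α β h) ∧
      ∀ l : ℕ, l.Prime → 7 ≤ l → l ∣ Nat.card k - 1 → ∃ t z : k, z ≠ 0 ∧ ∀ j : ℕ,
        weight α β (algebraMap k[X] (RatFunc k) (C t + C z * X ^ l ^ j)) ≤ 6 ∧
          RankTwo k (hA α β (algebraMap k[X] (RatFunc k) (C t + C z * X ^ l ^ j)))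
            (hB α β (algebraMap k[X] (RatFunc k) (C t + C z * X ^ l ^ j)))) ∧
    ∀ ν : k, (∀ z : k, z ^ 3 ≠ ν) → Parameters (-ν) (-1) := by
  have h2 : (2 : k) ≠ 0 := fun e => h6 (by linear_combination 3 * e)
  have h3 : (3 : k) ≠ 0 := fun e => h6 (by linear_combination 2 * e)
  refine ⟨fun α β hp => ?_, fun ν hν => ⟨⟨?_, ?_⟩, ⟨?_, ?_⟩, ?_, ?_⟩⟩
  rotate_left
  · intro h0
    exact hν 0 (by linear_combination h0)
  · exact neg_ne_zero.2 one_ne_zero
  · intro h0
    exact hν (-1) (by linear_combination h0)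
  · intro h0
    exact h2 (by linear_combination -h0)
  · intro h0
    exact hν 1 (by linear_combination -h0)
  · intro z hz
    rw [neg_div_neg_eq, div_one] at hz
    exact hν z hz
  have D := dat_of hp
  obtain ⟨iX, i1, ir, n1, n2, n3, dr, hfd, hed, hcop, hgd, hgi⟩ := D.facts h3
  refine ⟨⟨hgi, hgd⟩, fun K _ _ hK h hh => common h6 hq hK hp hh, fun l hl hl7 hd => ?_⟩
  obtain ⟨t, z, hz, hj⟩ := D.tower h3 hl hl7 hd
  refine ⟨t, z, hz, fun j => ?_⟩
  have hmd : (C t + C z * X ^ l ^ j : k[X]).natDegree = l ^ j := by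
    rw [natDegree_C_add]
    exact natDegree_C_mul_X_pow _ _ hz
  have hpos : 0 < (C t + C z * X ^ l ^ j : k[X]).natDegree := by rw [hmd]; exact pow_pos hl.pos j
  haveI : Fact (Nat.Prime 3) := ⟨Nat.prime_three⟩
  have hW : weight α β (algebraMap k[X] (RatFunc k) (C t + C z * X ^ l ^ j)) ≤ 6 := hj j
  refine ⟨hW, ?_⟩
  have h1 := (common h6 hq Pool.Agent.TH958.T4.isCurveField_rat hp
    (poly_nonconst hpos)).2.2 1 Pool.Agent.W309.RF.isZetaNum_rat
  apply h1.2.2
  rw [rootSum_one, zero_add]
  exact hW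

end Pool.Agent.Results.MP_ff7320_nt.RankTwoOneModThree
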