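import Pool.Agent.R427.QR4

/-!
# Elliptic curves over function fields with a point of order seven

Every elliptic curve with a point of order seven over a field of characteristic not two, three or seven
is isomorphic to `y ^ 2 + (1 + g - g ^ 2) x y + (g ^ 2 - g ^ 3) y = x ^ 3 + (g ^ 2 - g ^ 3) x ^ 2` for
some `g`; in short form this is `y ^ 2 = x ^ 3 + A(g) x + B(g)` with the polynomials `A` and `B` below.
Over `k(t)` the curve with `g = t` is the generic fibre of an elliptic K3 surface, which in
characteristic five is supersingular. We show that over all function fields of characteristic five the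
rank of `E_g` is positive, we bound the order of vanishing of the `L`-function of `E_g` for all `g` over
all function fields, and we find `g` in `k(t)`, of characteristic five and of unbounded degree, for which
the two bounds agree.
-/

set_option autoImplicit false
set_option linter.all false
set_option maxHeartbeats 4000000

open Polynomial Pool.Agent.W343.BSD Pool.Agent.W313.Gr

namespace Pool.Agent.Results.MP_ff7320_nt.SevenTorsion

section defs

/-- The coefficient of `x` of the curve `E_g`. -/
def coeffA {K : Type} [Field K] (g : K) : K :=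
  -27 * (g ^ 8 - 12 * g ^ 7 + 42 * g ^ 6 - 56 * g ^ 5 + 35 * g ^ 4 - 14 * g ^ 2 + 4 * g + 1)

/-- The constant coefficient of the curve `E_g`. -/
def coeffB {K : Type} [Field K] (g : K) : K :=
  54 * (g ^ 12 - 18 * g ^ 11 + 117 * g ^ 10 - 354 * g ^ 9 + 570 * g ^ 8 - 486 * g ^ 7 +
    273 * g ^ 6 - 222 * g ^ 5 + 174 * g ^ 4 - 46 * g ^ 3 - 15 * g ^ 2 + 6 * g + 1)

variable {k K : Type} [Field k] [Field K] [Algebra k K]

open Classical in
/-- The sum of `7 ^ v₇(deg v)` over the zeros `v` of `g` (without multiplicities). -/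
noncomputable def zeroSum (k : Type) {K : Type} [Field k] [Field K] [Algebra k K] (g : K) : ℕ :=
  ∑ᶠ v : FF.Place k K, if 0 < v.ord g then 7 ^ padicValNat 7 (S.deg v) else 0

open Classical in
/-- The sum of `7 ^ v₇(deg v)` over the zeros `v` of `g` (without multiplicities) for which the order
`q_v = q ^ deg v` of the residue field is congruent to `1` modulo seven. -/
noncomputable def zeroSumOne (k : Type) {K : Type} [Field k] [Field K] [Algebra k K] (g : K) : ℕ :=
  ∑ᶠ v : FF.Place k K, if 0 < v.ord g then
    (if 7 ∣ Nat.card k ^ S.deg v - 1 then 7 ^ padicValNat 7 (S.deg v) else 0) else 0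

/-- The weight of `g`: the zeros and poles of `g`, the zeros of `g - 1` and the zeros of
`g ^ 3 - 8 g ^ 2 + 5 g + 1` with `q_v` congruent to `1` modulo seven, each counted with weight
`7 ^ v₇(deg v)`. -/
noncomputable def weight (k : Type) {K : Type} [Field k] [Field K] [Algebra k K] (g : K) : ℕ :=
  zeroSum k g + zeroSum k g⁻¹ + zeroSum k (g - 1) + zeroSumOne k (g ^ 3 - 8 * g ^ 2 + 5 * g + 1)

/-- `y ^ 2 = x ^ 3 + a x + b` is an elliptic curve with a non-constant `j`-invariant
`6912 a ^ 3 / (4 a ^ 3 + 27 b ^ 2)`. -/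
def NonIsotrivial (k : Type) {K : Type} [Field k] [Field K] [Algebra k K] (a b : K) : Prop :=
  4 * a ^ 3 + 27 * b ^ 2 ≠ 0 ∧
    ∀ c : k, 6912 * a ^ 3 / (4 * a ^ 3 + 27 * b ^ 2) ≠ algebraMap k K c

open Classical in
/-- The curve `y ^ 2 = x ^ 3 + a x + b` has a `K`-rational point of order seven. -/
def HasOrderSeven {K : Type} [Field K] (a b : K) : Prop :=
  ∃ P : (curve a b).toAffine.Point, P ≠ 0 ∧ (7 : ℕ) • P = 0

/-- If `L(T, E)` is `(1 - |k| T) ^ m G(T)` with `G` in `ℤ[T]` then `m ≤ N`. -/
def OrderBound (k : Type) {K : Type} [Field k] [Field K] [Algebra k K] (a b : K) (N : ℕ) : Prop :=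
  ∀ m : ℕ, S.VanishesTo k a b m → m ≤ N

/-- The rank is at least `R` and the order of vanishing `r` of `L(T, E)` at `T = 1 / |k|` (if
`L(T, E)` is a polynomial) is at most `R`. If the rank is at most the order then both are `R`. -/
def RankAndOrder (k : Type) {K : Type} [Field k] [Field K] [Algebra k K] (a b : K) (R : ℕ) : Prop :=
  R ≤ rank a b ∧ OrderBound k a b R ∧
    ∀ r : ℕ, HasOrder k a b r → r ≤ R ∧ (rank a b ≤ r → r = R ∧ rank a b = R)

/-- `4` if `q` is congruent to `1` modulo seven and `2` otherwise. -/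
noncomputable def shift (k : Type) : ℕ := if 7 ∣ Nat.card k - 1 then 4 else 2

/-- The sum of the multiplicities of the roots `1 / q` and `1` modulo seven of the numerator `P` of the
zeta function of `K`. -/
noncomputable def numRoots (k : Type) (P : Polynomial ℤ) : ℕ :=
  (P.map (Int.castRingHom (ZMod 7))).rootMultiplicity ((Nat.card k : ℕ) : ZMod 7)⁻¹ +
    (P.map (Int.castRingHom (ZMod 7))).rootMultiplicity 1

/-- The curve `E_g` has a non-constant `j`-invariant, a point of order seven and at least the rank of
`E_t` over `k(t)`. If `P` is the numerator of the zeta function of `K`, then `numRoots P` is zero if the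
class number of `K` is prime to seven, the order of vanishing `m` of `L(T, E_g)` satisfies
`m + shift ≤ numRoots P + weight g`, and if the rank is at least `R` and
`numRoots P + weight g ≤ R + shift`, then `RankAndOrder` holds with this `R`. -/
def Conclusions (k : Type) {K : Type} [Field k] [Field K] [Algebra k K] (g : K) : Prop :=
  NonIsotrivial k (coeffA g) (coeffB g) ∧ HasOrderSeven (coeffA g) (coeffB g) ∧
    rank (coeffA (RatFunc.X : RatFunc k)) (coeffB (RatFunc.X : RatFunc k)) ≤
      rank (coeffA g) (coeffB g) ∧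
    ∀ P : Polynomial ℤ, S.IsZetaNum k K P →
      (¬ 7 ∣ S.classNumber k K → numRoots k P = 0) ∧
      (∀ m : ℕ, S.VanishesTo k (coeffA g) (coeffB g) m → m + shift k ≤ numRoots k P + weight k g) ∧
      ∀ R : ℕ, R ≤ rank (coeffA g) (coeffB g) → numRoots k P + weight k g ≤ R + shift k →
        RankAndOrder k (coeffA g) (coeffB g) R

open Classical in
/-- `2` if two is a square in `k` and `1` otherwise. -/
noncomputable def rankFive (k : Type) [Field k] : ℕ := if IsSquare (2 : k) then 2 else 1

end defs

section proof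

open Pool.Agent.R427 in
theorem forty {k : Type} [Field k] (h : (42 : k) ≠ 0) :
    (2 : k) ≠ 0 ∧ (3 : k) ≠ 0 ∧ (7 : k) ≠ 0 :=
  ⟨fun e => h (by linear_combination 21 * e), fun e => h (by linear_combination 14 * e),
    fun e => h (by linear_combination 6 * e)⟩

theorem cA_eq {K : Type} [Field K] (g : K) : coeffA g = Pool.Agent.R427.SV.sA g := rfl

theorem cB_eq {K : Type} [Field K] (g : K) : coeffB g = Pool.Agent.R427.SV.sB g := rfl

open Pool.Agent.R427 in
theorem order_le {k K : Type} [Field k] [Finite k] [Field K] [Algebra k K]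
    (hK : IsCurveField k K) (h : (42 : k) ≠ 0) {g : K} (hg : ∀ c : k, g ≠ algebraMap k K c)
    {P : Polynomial ℤ} (hP : S.IsZetaNum k K P) (m : ℕ)
    (hm : S.VanishesTo k (coeffA g) (coeffB g) m) :
    m + shift k ≤ numRoots k P + weight k g := by
  haveI : FF.IsFF k K := ⟨hK.essFiniteType, hK.trdeg_eq_one⟩
  have hr : constDeg k K = 1 := TH958.T4.constDeg_eq_one hK.algClosed
  obtain ⟨h2, h3, h7⟩ := forty h
  have htr := TH180.R2.transc hr hg
  obtain ⟨g0, g1, g2, hΔ⟩ := QR.ne_facts h2 h3 htr
  exact QR.bound h2 h3 h7 hΔ g2 ((S.isZetaNum_iff P).1 hP) hr hm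

open Pool.Agent.R427 in
theorem numRoots_zero {k K : Type} [Field k] [Finite k] [Field K] [Algebra k K]
    (hK : IsCurveField k K) (h7 : (7 : k) ≠ 0) {P : Polynomial ℤ} (hP : S.IsZetaNum k K P)
    (hcl : ¬ 7 ∣ S.classNumber k K) : numRoots k P = 0 := by
  haveI : FF.IsFF k K := ⟨hK.essFiniteType, hK.trdeg_eq_one⟩
  haveI : Fact (Nat.Prime 7) := ⟨by norm_num⟩
  have h7' : ((7 : ℕ) : k) ≠ 0 := by exact_mod_cast h7
  have hr : constDeg k K = 1 := TH958.T4.constDeg_eq_one hK.algClosed
  have hcl' : ¬ 7 ∣ classNumber k K := by rwa [← S.classNumber_eq]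
  have hconst : ∀ a : K, IsAlgebraic k a → a ∈ (algebraMap k K).range := hK.algClosed
  obtain ⟨Q, hQ, hQ1⟩ := exists_num k K hconst
  have hPQ : P = Q := by
    have h1 := (S.isZetaNum_iff P).1 hP
    unfold IsZetaNumRel at h1
    unfold IsZetaNum at hQ
    rw [hr, pow_one, pow_one] at h1
    have h2 := h1.trans hQ.symm
    apply Polynomial.coe_injective
    refine mul_right_cancel₀ (fun h0 => ?_) h2
    rw [h0, mul_zero] at h1
    have h3 := congrArg (PowerSeries.constantCoeff (R := ℤ)) h1
    simp at h3
  subst hPQ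
  have e1 := AQ.eval_inv_ne (l := 7) h7' hconst hQ hcl'
  unfold numRoots
  rw [Polynomial.rootMultiplicity_eq_zero e1, Polynomial.rootMultiplicity_eq_zero, add_zero]
  intro h0
  rw [IsRoot.def, Polynomial.eval_one_map, hQ1, eq_intCast, ZMod.intCast_zmod_eq_zero_iff_dvd] at h0
  exact hcl' (by exact_mod_cast h0)

open Pool.Agent.R427 in
/-- the conclusions for one curve -/
theorem common {k K : Type} [Field k] [Finite k] [Field K] [Algebra k K] (hK : IsCurveField k K)
    (h : (42 : k) ≠ 0) {g : K} (hg : ∀ c : k, g ≠ algebraMap k K c) : Conclusions k g := by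
  haveI : FF.IsFF k K := ⟨hK.essFiniteType, hK.trdeg_eq_one⟩
  have hr : constDeg k K = 1 := TH958.T4.constDeg_eq_one hK.algClosed
  obtain ⟨h2, h3, h7⟩ := forty h
  have htr := TH180.R2.transc hr hg
  obtain ⟨g0, g1, g2, hΔ⟩ := QR.ne_facts h2 h3 htr
  have h2K : (2 : K) ≠ 0 := by
    have : algebraMap k K 2 ≠ 0 := by simpa using h2
    rwa [map_ofNat] at this
  have h3K : (3 : K) ≠ 0 := by
    have : algebraMap k K 3 ≠ 0 := by simpa using h3
    rwa [map_ofNat] at this
  refine ⟨⟨hΔ, fun c hc => QR.noniso h2 h3 htr c ((div_eq_iff hΔ).1 hc)⟩,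
    QR.seven_tors h2K h3K g0 g1, QR.rank_pull htr, fun P hP => ?_⟩
  have hb := order_le hK h hg hP
  refine ⟨fun hcl => numRoots_zero hK h7 hP hcl, hb, fun R hR hw => ?_⟩
  have hU : ∀ m : ℕ, S.VanishesTo k (coeffA g) (coeffB g) m → m ≤ R := by
    intro m hm
    have := hb m hm
    omega
  exact ⟨hR, hU, fun r hr' => TH180.R4.concl4 hR hU r hr'⟩

theorem poly_nonconst {k : Type} [Field k] {g : k[X]} (hg : 0 < g.natDegree) (c : k) :
    algebraMap k[X] (RatFunc k) g ≠ algebraMap k (RatFunc k) c := by
  intro hz
  have h1 : g = C c := RatFunc.algebraMap_injective k hz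
  rw [h1, natDegree_C] at hg
  exact lt_irrefl _ hg

theorem numRoots_one (k : Type) : numRoots k 1 = 0 := by
  unfold numRoots
  rw [Polynomial.map_one]
  have h : ∀ x : ZMod 7, (1 : (ZMod 7)[X]).rootMultiplicity x = 0 := by
    intro x
    apply rootMultiplicity_eq_zero
    rw [IsRoot.def, eval_one]
    decide
  rw [h, h]

open Pool.Agent.R427 in
theorem five_facts {k : Type} [Field k] (h5 : (5 : k) = 0) : (42 : k) ≠ 0 := by
  have h2 := QR.two_ne h5
  have e : (42 : k) = 2 := by linear_combination 8 * h5
  rw [e]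
  exact h2

open Pool.Agent.R427 in
theorem rank_five {k K : Type} [Field k] [Finite k] [Field K] [Algebra k K]
    (hK : IsCurveField k K) (h5 : (5 : k) = 0) {g : K} (hg : ∀ c : k, g ≠ algebraMap k K c) :
    (rankFive k : Cardinal) ≤ rank (coeffA g) (coeffB g) := by
  haveI : FF.IsFF k K := ⟨hK.essFiniteType, hK.trdeg_eq_one⟩
  have hr : constDeg k K = 1 := TH958.T4.constDeg_eq_one hK.algClosed
  exact (QR.rank_rr h5).trans (QR.rank_pull (TH180.R2.transc hr hg))

open Pool.Agent.R427 in
/-- over the rational function field -/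
theorem rat {k : Type} [Field k] [Finite k] (h5 : (5 : k) = 0) {g : k[X]} (hg : 0 < g.natDegree)
    (hw : weight k (algebraMap k[X] (RatFunc k) g) ≤ rankFive k + shift k) :
    RankAndOrder k (coeffA (algebraMap k[X] (RatFunc k) g))
      (coeffB (algebraMap k[X] (RatFunc k) g)) (rankFive k) := by
  have hK : IsCurveField k (RatFunc k) := Pool.Agent.TH958.T4.isCurveField_rat
  have h1 := (common hK (five_facts h5) (poly_nonconst hg)).2.2.2 1
    Pool.Agent.W309.RF.isZetaNum_rat
  apply h1.2.2 _ (rank_five hK h5 (poly_nonconst hg))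
  rw [numRoots_one, zero_add]
  exact hw

end proof

/-- For `g` in a function field `K` over a finite field `k` with `q` elements let `E_g` be the curve
`y ^ 2 = x ^ 3 + A(g) x + B(g)`, a short form of
`y ^ 2 + (1 + g - g ^ 2) x y + (g ^ 2 - g ^ 3) y = x ^ 3 + (g ^ 2 - g ^ 3) x ^ 2`.

(1) Let the characteristic be not `2, 3, 7`, let `K` be the function field of a curve over `k` and `g`
in `K` non-constant. Then `E_g` has a non-constant `j`-invariant, a point of order seven and at least
the rank of `E_t` over `k(t)`. Its `L`-function vanishes at `1 / q` to order at most `N + W - s`, where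
`N` is the number of roots `1` and `1 / q` modulo seven of the numerator of the zeta function of `K`
(zero if the class number of `K` is prime to seven), `W` is the number of the zeros and poles of `g`,
the zeros of `g - 1` and the zeros of `g ^ 3 - 8 g ^ 2 + 5 g + 1` with `q_v` congruent to `1` modulo
seven, a place `v` counted with weight `7 ^ v₇(deg v)`, and `s` is `4` if `q` is congruent to `1` modulo
seven and `2` otherwise. If the rank is at least `R` and `N + W - s` is at most `R`, the order is at most
`R`, and rank and order are `R` if the rank is at most the order.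

(2) Let the characteristic be five, and let `R` be `2` if two is a square in `k` (if the degree of `k`
over the prime field is even) and `1` otherwise. Then the rank of `E_g` over `K` is at least `R` for all
non-constant `g` in `K`.

(3) Let the characteristic be five and `K = k(t)`. The last conclusion of (1) holds with this `R` for
`g = t`, and if a prime `l ≥ 11` divides `q - 1` there is `c` in `k`, not zero, such that it holds for
`g = c t ^ (l ^ j)` for all `j`. -/
theorem result :
    (∀ (k K : Type) [Field k] [Finite k] [Field K] [Algebra k K], (42 : k) ≠ 0 →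
      IsCurveField k K → ∀ g : K, (∀ c : k, g ≠ algebraMap k K c) → Conclusions k g) ∧
    (∀ (k K : Type) [Field k] [Finite k] [Field K] [Algebra k K], (5 : k) = 0 →
      IsCurveField k K → ∀ g : K, (∀ c : k, g ≠ algebraMap k K c) →
        (rankFive k : Cardinal) ≤ rank (coeffA g) (coeffB g)) ∧
    ∀ (k : Type) [Field k] [Finite k], (5 : k) = 0 →
      RankAndOrder k (coeffA (RatFunc.X : RatFunc k)) (coeffB (RatFunc.X : RatFunc k))
        (rankFive k) ∧
      ∀ l : ℕ, l.Prime → 11 ≤ l → l ∣ Nat.card k - 1 → ∃ c : k, c ≠ 0 ∧ ∀ j : ℕ,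
        RankAndOrder k (coeffA (algebraMap k (RatFunc k) c * RatFunc.X ^ l ^ j))
          (coeffB (algebraMap k (RatFunc k) c * RatFunc.X ^ l ^ j)) (rankFive k) := by
  classical
  refine ⟨fun k K _ _ _ _ h hK g hg => common hK h hg,
    fun k K _ _ _ _ h5 hK g hg => rank_five hK h5 hg, ?_⟩
  intro k _ _ h5
  refine ⟨?_, ?_⟩
  · have hX : (X : k[X]).natDegree = 1 := natDegree_X
    have h1 := rat h5 (g := (X : k[X])) (by rw [hX]; exact one_pos) (by
      rw [RatFunc.algebraMap_X]
      exact Pool.Agent.R427.QR.W_X h5)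
    rwa [RatFunc.algebraMap_X] at h1
  · intro l hl hl11 hd
    obtain ⟨c, hc, hj⟩ := Pool.Agent.R427.QR.exists_W h5 hl hl11 hd
    refine ⟨c, hc, fun j => ?_⟩
    have hmd : (C c * X ^ l ^ j : k[X]).natDegree = l ^ j := natDegree_C_mul_X_pow _ _ hc
    have h1 := rat h5 (g := (C c * X ^ l ^ j : k[X])) (by rw [hmd]; exact pow_pos hl.pos j) (hj j)
    have e : algebraMap k[X] (RatFunc k) (C c * X ^ l ^ j) =
        algebraMap k (RatFunc k) c * RatFunc.X ^ l ^ j := by
      rw [map_mul, map_pow, RatFunc.algebraMap_X]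
      rfl
    rwa [e] at h1

end Pool.Agent.Results.MP_ff7320_nt.SevenTorsion
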